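import Pool.Agent.H44.DU.Basic2

/-! Board du_modules (MP_81a758_an), module PU. -/

set_option autoImplicit false

namespace Pool.Agent.H35.DU.PU

open Pool.Agent.H44.DU Surf

variable {n : ℕ} (S : Surf n)

/-- The product of a periodic sequence. -/
lemma prod_periodic (f : ℕ → ℝ) (p : ℕ) (hf : ∀ k, f (k + p) = f k) (j : ℕ) :
    ∏ k ∈ Finset.range (j * p), f k = (∏ k ∈ Finset.range p, f k) ^ j := by
  have hf' : ∀ j k, f (j * p + k) = f k := by
    intro j
    induction j with
    | zero => intro k; simp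
    | succ j ih =>
      intro k
      rw [show (j + 1) * p + k = (j * p + k) + p by ring, hf, ih]
  induction j with
  | zero => simp
  | succ j ih =>
    rw [add_mul, one_mul, Finset.prod_range_add, ih, pow_succ]
    congr 1
    exact Finset.prod_congr rfl fun k _ => hf' j k

lemma chain_U {U : Fin n → Prop} {t : ℝ} (hA : S.Abs U t) {y : ℕ → Side n × ℝ}
    (hy : ∀ k, S.Tr t (y k) (y (k + 1))) (h0 : U (y 0).1.1) : ∀ k, U (y k).1.1 := by
  intro k
  induction k with
  | zero => exact h0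
  | succ k ih =>
    have h := hy k
    rw [← h.2.2.1]
    exact hA _ _ h.1 ih

lemma run_U {U : Fin n → Prop} {t : ℝ} (hA : S.Abs U t) (w : List (Side n)) (x : ℝ)
    (hw : S.Run t w x) (h0 : ∀ r ∈ w.head?, U r.1) : ∀ r ∈ w, U r.1 := by
  induction w generalizing x with
  | nil => simp
  | cons r w ih =>
    obtain ⟨a1, a2, a3⟩ := hw
    have hr : U r.1 := h0 r (by simp)
    have h := ih _ a3 (fun r' hr' => by
      rw [← a2 r' hr']
      exact hA _ _ a1 hr)
    intro s hs
    rcases List.mem_cons.1 hs with h1 | h1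
    · rw [h1]; exact hr
    · exact h s h1

lemma prod_le {U : Fin n → Prop} {t C ρ : ℝ} (hC : S.Contr U t C ρ) {y : ℕ → Side n × ℝ}
    (hy : ∀ k, S.Tr t (y k) (y (k + 1))) (hU : ∀ k, U (y k).1.1) (k m : ℕ) :
    ∏ j ∈ Finset.range m, S.a (y (k + j)).1 ≤ C * ρ ^ m := by
  obtain ⟨h1, -, h3⟩ := S.chain_run hy k m
  rw [← h3]
  have h := hC _ _ (fun r hr => by
    obtain ⟨j, -, rfl⟩ := List.mem_map.1 hr
    exact hU _) h1
  simpa using h

lemma prod_pos (y : ℕ → Side n × ℝ) (k m : ℕ) :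
    0 < ∏ j ∈ Finset.range m, S.a (y (k + j)).1 :=
  Finset.prod_pos fun _ _ => S.a_pos _

lemma exists_small {C ρ : ℝ} (hC : 0 < C) (h0 : 0 < ρ) (h1 : ρ < 1) {p : ℕ} (hp : 0 < p)
    {ε : ℝ} (hε : 0 < ε) (J : ℕ) : ∃ j ≥ J, C * ρ ^ (j * p) < ε := by
  obtain ⟨j, hj⟩ := exists_pow_lt_of_lt_one (div_pos hε hC) h1
  refine ⟨max j J, le_max_right _ _, ?_⟩
  have h2 : j ≤ max j J * p := (le_max_left j J).trans (Nat.le_mul_of_pos_right _ hp)
  have h3 : ρ ^ (max j J * p) ≤ ρ ^ j := pow_le_pow_of_le_one h0.le h1.le h2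
  calc C * ρ ^ (max j J * p) ≤ C * ρ ^ j := mul_le_mul_of_nonneg_left h3 hC.le
    _ < C * (ε / C) := mul_lt_mul_of_pos_left hj hC
    _ = ε := by field_simp

lemma prod_lt_one {U : Fin n → Prop} {t C ρ : ℝ} (hC0 : 0 < C) (h0 : 0 < ρ) (h1 : ρ < 1)
    (hC : S.Contr U t C ρ) {y : ℕ → Side n × ℝ}
    (hy : ∀ k, S.Tr t (y k) (y (k + 1))) (hU : ∀ k, U (y k).1.1) {p : ℕ} (hp : 0 < p)
    (hper : ∀ k, y (k + p) = y k) : ∏ j ∈ Finset.range p, S.a (y j).1 < 1 := by
  by_contra hcon
  push Not at hcon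
  obtain ⟨j, -, hj⟩ := exists_small hC0 h0 h1 hp one_pos 0
  have h2 := prod_le S hC hy hU 0 (j * p)
  simp only [zero_add] at h2
  rw [prod_periodic (fun k => S.a (y k).1) p (fun k => by rw [hper k]) j] at h2
  have h3 : (1 : ℝ) ≤ (∏ k ∈ Finset.range p, S.a (y k).1) ^ j := one_le_pow₀ hcon
  linarith

lemma limit_chain (h4 : T_P4) (h5 : T_P5) {U : Fin n → Prop} {t c C ρ : ℝ} {m : ℕ}
    (hA : S.Abs U t) (hG : S.Gd t) (hc : 0 < c) (hga : S.Gain t c) (hC0 : 0 < C) (h0 : 0 < ρ)
    (h1 : ρ < 1) (hC : S.Contr U t C ρ) (hm : 0 < m) (hNB : S.NotBad U t m)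
    {y : ℕ → Side n × ℝ} (hy : ∀ k, S.Tr t (y k) (y (k + 1))) (hy0 : U (y 0).1.1) :
    ∃ (K p : ℕ) (z : ℕ → Side n × ℝ), 0 < p ∧ (∀ k, S.Tr t (z k) (z (k + 1))) ∧
      (∀ k, (z k).1 = (y (K + k)).1) ∧ (∀ k, z (k + p) = z k) := by
  obtain ⟨K, p, hp, hK⟩ := h5 n S U t m hA hm hNB y hy hy0
  have hU := chain_U S hA hy hy0
  obtain ⟨z, z1, z2, z3, -⟩ := h4 n S U t c C ρ m hA hG hc hga hC0 h0 h1 hC hm hNB
    (fun k => y (K + k)) p (fun k => by simpa only [add_assoc] using hy (K + k))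
    (by simpa using hU K) hp (fun k => by
      have := hK (K + k) (Nat.le_add_right _ _)
      simpa only [add_assoc] using this)
  exact ⟨K, p, z, hp, z1, z2, z3⟩

lemma z_mul {p : ℕ} {z : ℕ → Side n × ℝ} (h : ∀ k, z (k + p) = z k) (j : ℕ) :
    z (j * p) = z 0 := by
  induction j with
  | zero => simp
  | succ j ih => rw [add_mul, one_mul, h, ih]

/-- The first letters of a periodic state. -/
lemma per_chain {t : ℝ} {p : Side n × ℝ} (hp : p ∈ S.TPer t) :
    ∃ (q : ℕ) (y : ℕ → Side n × ℝ), 0 < q ∧ (∀ k, S.Tr t (y k) (y (k + 1))) ∧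
      (∀ k, y (k + q) = y k) ∧ y 0 = p := by
  obtain ⟨q, y, hy, h0⟩ := hp
  obtain ⟨a1, a2⟩ := S.cyc_chain hy
  exact ⟨q, fun k => y (k % q), hy.1, a1, a2, by simpa using h0⟩

lemma y_mul {q : ℕ} {y : ℕ → Side n × ℝ} (h : ∀ k, y (k + q) = y k) (j k : ℕ) :
    y (k + j * q) = y k := by
  induction j with
  | zero => simp
  | succ j ih => rw [add_mul, one_mul, ← add_assoc, h, ih]

theorem pf_PU (h3 : T_P3) (h4 : T_P4) (h5 : T_P5) (h6 : T_P6) (hEX : T_EX) : T_PU := by
  intro n S U t c C ρ m hA hG hc hga hC0 h0 h1 hC hm hNB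
  constructor
  · -- fin
    classical
    have hex : ∀ p : Side n × ℝ, ∃ l : List (Side n), p ∈ S.TPer t →
        ∃ (q : ℕ) (y : ℕ → Side n × ℝ), 0 < q ∧ (∀ k, S.Tr t (y k) (y (k + 1))) ∧
          (∀ k, y (k + q) = y k) ∧ y 0 = p ∧ l = (List.range m).map (fun j => (y j).1) := by
      intro p
      by_cases hp : p ∈ S.TPer t
      · obtain ⟨q, y, a1, a2, a3, a4⟩ := per_chain S hp
        exact ⟨_, fun _ => ⟨q, y, a1, a2, a3, a4, rfl⟩⟩
      · exact ⟨[], fun h => absurd h hp⟩
    choose f hf using hex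
    refine Set.Finite.of_injOn (f := f) (t := {l : List (Side n) | l.length = m}) ?_ ?_
      (List.finite_length_eq _ _)
    · intro p hp
      obtain ⟨q, y, -, -, -, -, h⟩ := hf p hp.1
      simp [h]
    · intro p hp p' hp' hpp
      obtain ⟨q, y, a1, a2, a3, a4, a5⟩ := hf p hp.1
      obtain ⟨q', y', b1, b2, b3, b4, b5⟩ := hf p' hp'.1
      have hlet : ∀ j < m, (y j).1 = (y' j).1 := by
        have h : (List.range m).map (fun j => (y j).1) = (List.range m).map (fun j => (y' j).1) := by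
          rw [← a5, ← b5, hpp]
        intro j hj
        exact List.map_inj_left.1 h j (List.mem_range.2 hj)
      have hU0 : U (y 0).1.1 := by rw [a4]; exact hp.2
      have hU := chain_U S hA a2 hU0
      have hall := (h3 n S U t m hA hm hNB).2 y y' a2 b2 hU0 hlet
      have hd := S.chain_diff a2 b2 hall 0 (q' * q)
      have hP : ∀ k, y (k + q' * q) = y k := y_mul a3 q'
      have hP' : ∀ k, y' (k + q' * q) = y' k := by
        intro k
        rw [mul_comm q' q]
        exact y_mul b3 q k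
      have hlt := prod_lt_one S hC0 h0 h1 hC a2 hU (Nat.mul_pos b1 a1) hP
      rw [hP 0, hP' 0] at hd
      simp only [zero_add] at hd
      have hz : (y 0).2 - (y' 0).2 = 0 := by
        by_contra hne
        have : (1 - ∏ j ∈ Finset.range (q' * q), S.a (y j).1) * ((y 0).2 - (y' 0).2) = 0 := by
          linarith
        rcases mul_eq_zero.1 this with h | h
        · linarith
        · exact hne h
      rw [← a4, ← b4]
      exact Prod.ext (hall 0) (by linarith)
  · -- ne
    rintro ⟨i, hi⟩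
    obtain ⟨r, hr, hlt⟩ : ∃ r : Side n, r.1 = i ∧ xi t (S.Q r) < xi t (S.P r) := by
      by_contra hcon
      push Not at hcon
      have hne : ∀ s : Side n, xi t (S.P s) ≠ xi t (S.Q s) := by
        intro s hs
        have e1 : S.dev [] s = S.P s := by simp [dev, B, A]
        have e2 : S.dev [] (nx s) = S.Q s := by simp [dev, B, A, P_nx]
        have h := hG [] [] s (nx s) (by rw [e1, e2]; exact hs)
        rw [e1, e2] at h
        apply S.P_ne_Q s
        apply Complex.ext _ h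
        simp only [xi] at hs
        rw [h] at hs
        linarith
      have k0 := hcon (i, 0) rfl
      have k1 := hcon (nx (i, 0)) rfl
      have k2 := hcon (nx (nx (i, 0))) rfl
      rw [P_nx, Q_nx] at k1
      rw [P_nx_nx, Q_nx_nx] at k2
      exact hne (i, 0) (le_antisymm k0 (k1.trans k2))
    have hword : ∀ k : ℕ, ∃ (w : List (Side n)) (x : ℝ), w.length = k + 1 ∧
        (∀ s ∈ w.head?, U s.1) ∧ S.Run t w x := by
      intro k
      induction k with
      | zero =>
        refine ⟨[r], (xi t (S.Q r) + xi t (S.P r)) / 2, rfl, ?_, ?_⟩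
        · intro s hs
          simp only [List.head?_cons, Option.mem_def, Option.some.injEq] at hs
          rw [← hs, hr]; exact hi
        · rw [run_single]
          constructor <;> linarith
      | succ k ih =>
        obtain ⟨w, x, w1, w2, w3⟩ := ih
        have hwne : w ≠ [] := by
          intro h; rw [h] at w1; simp at w1
        obtain ⟨u, l, rfl⟩ : ∃ u l, w = u ++ [l] :=
          ⟨w.dropLast, w.getLast hwne, (List.dropLast_append_getLast hwne).symm⟩
        obtain ⟨r', x', -, hx'⟩ := hEX n S t x 1 u l one_pos w3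
        refine ⟨u ++ [l] ++ [r'], x', by simp at w1 ⊢; omega, ?_, hx'⟩
        intro s hs
        apply w2 s
        cases u with
        | nil => simpa using hs
        | cons a u => simpa using hs
    obtain ⟨w, x, w1, w2, w3⟩ := hword (m - 1)
    have hwm : w.length = m := by omega
    obtain ⟨y, y1, -, y3, -⟩ := (h3 n S U t m hA hm hNB).1 w
      ⟨hwm, run_U S hA w x w3 w2, x, w3⟩ x w3
    obtain ⟨K, p, z, z0, z1, z2, z3⟩ := limit_chain S h4 h5 hA hG hc hga hC0 h0 h1 hC hm hNB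
      y1 (y3 0)
    refine ⟨z 0, S.chain_tper z1 z0 z3 0, ?_⟩
    rw [z2 0]
    exact y3 _
  · -- hyp
    intro q y hy hy0
    obtain ⟨a1, a2⟩ := S.cyc_chain hy
    have hU0 : U (y (0 % q)).1.1 := by simpa using hy0
    have hU := chain_U S hA (y := fun k => y (k % q)) a1 hU0
    have h := prod_lt_one S hC0 h0 h1 hC (y := fun k => y (k % q)) a1 hU hy.1 a2
    have he : ∏ j ∈ Finset.range q, S.a (y (j % q)).1 = ∏ k ∈ Finset.range q, S.a (y k).1 :=
      Finset.prod_congr rfl fun k hk => by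
        rw [Nat.mod_eq_of_lt (Finset.mem_range.1 hk)]
    rw [he] at h
    exact h.ne
  · -- fwd
    intro y hy hy0
    have hU := chain_U S hA hy hy0
    obtain ⟨K, p, z, z0, z1, z2, z3⟩ := limit_chain S h4 h5 hA hG hc hga hC0 h0 h1 hC hm hNB
      hy hy0
    refine ⟨z 0, S.chain_tper z1 z0 z3 0, ?_⟩
    intro ε hε N
    have hy' : ∀ k, S.Tr t (y (K + k)) (y (K + (k + 1))) := fun k => by
      simpa only [add_assoc] using hy (K + k)
    set D : ℝ := |(y K).2 - (z 0).2| + 1 with hD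
    have hDpos : 0 < D := by positivity
    obtain ⟨j, hj1, hj2⟩ := exists_small hC0 h0 h1 z0 (div_pos hε hDpos) N
    refine ⟨K + j * p, ?_, ?_, ?_⟩
    · have : j ≤ j * p := Nat.le_mul_of_pos_right _ z0
      omega
    · rw [← z2, z_mul z3]
    · have hd := S.chain_diff (y := fun k => y (K + k)) (y' := z) hy' z1
        (fun k => (z2 k).symm) 0 (j * p)
      simp only [zero_add, add_zero] at hd
      rw [z_mul z3] at hd
      rw [hd, abs_mul]
      have hpr := prod_le S hC (y := fun k => y (K + k)) hy' (fun k => hU _) 0 (j * p)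
      have hpos := prod_pos S (fun k => y (K + k)) 0 (j * p)
      simp only [zero_add] at hpr hpos
      rw [abs_of_pos hpos]
      calc (∏ i ∈ Finset.range (j * p), S.a (y (K + i)).1) * |(y K).2 - (z 0).2|
          ≤ (C * ρ ^ (j * p)) * |(y K).2 - (z 0).2| :=
            mul_le_mul_of_nonneg_right hpr (abs_nonneg _)
        _ ≤ (C * ρ ^ (j * p)) * D := by
            apply mul_le_mul_of_nonneg_left _ (hpos.le.trans hpr)
            rw [hD]; linarith
        _ < (ε / D) * D := mul_lt_mul_of_pos_right hj2 hDpos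
        _ = ε := by field_simp
  · exact h6 n S U t c C ρ m hA hG hc hga hC0 h0 h1 hC hm hNB

end Pool.Agent.H35.DU.PU

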